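import Pool.Agent.R937.WN.Mon

/-!
# Cohomology theories with a Frobenius and a monodromy operator: definitions
-/

open TensorProduct

universe u v w

namespace Pool.Agent.R937.WN

/-- A space with a Frobenius operator `Φ` and a nilpotent monodromy operator `N`, `N Φ = q Φ N`, and
with the monodromy filtration `M` of `N`. -/
structure WDSpace (K : Type v) [Field K] (q : ℕ) where
  V : Type w
  [grp : AddCommGroup V]
  [mod : Module K V]
  Φ : Module.End K V
  N : Module.End K V
  comm : ∀ x, N (Φ x) = (q : K) • Φ (N x)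
  M : ℤ → Submodule K V
  isMonodromy : IsMonodromy N M
  stable : ∀ j, ∀ x ∈ M j, Φ x ∈ M j

attribute [instance] WDSpace.grp WDSpace.mod

variable {K : Type v} [Field K] {q : ℕ}

/-- `β` is a Frobenius eigenvalue on `(ker N ∩ im N ^ a) / (ker N ∩ im N ^ (a + 1))`. -/
def WDSpace.Occ (A : WDSpace.{v, w} K q) (a : ℕ) (β : K) : Prop := Occurs A.N A.Φ a β

/-- The space `U` with the operators `N`, `Φ` is a direct summand (as a module over `N`) of the space
`V` with the operators `N'`, `Φ'`, and the inclusion is compatible with `Φ`, `Φ'`. -/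
def IsSummand {U V : Type*} [AddCommGroup U] [Module K U] [AddCommGroup V] [Module K V]
    (N Φ : Module.End K U) (N' Φ' : Module.End K V) : Prop :=
  ∃ (κ : U →ₗ[K] V) (ρ : V →ₗ[K] U), (∀ t, ρ (κ t) = t) ∧ (∀ t, N' (κ t) = κ (N t)) ∧
    (∀ t, ρ (N' t) = N (ρ t)) ∧ ∀ t, Φ' (κ t) = κ (Φ t)

/-- `A ⊗ B` is a direct summand of `C`, compatibly with `Φ ⊗ Φ` and `N ⊗ 1 + 1 ⊗ N`. -/
def IsTensorSummand (A B C : WDSpace.{v, w} K q) : Prop :=
  IsSummand (sumOp A.N B.N) (TensorProduct.map A.Φ B.Φ) C.N C.Φ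

/-- A class of varieties that is closed under products, with cohomology groups `H X i` which carry a
Frobenius and a monodromy operator, and the Künneth formula. -/
structure Theory (K : Type v) [Field K] (q : ℕ) where
  Obj : Type u
  dim : Obj → ℕ
  prod : Obj → Obj → Obj
  dim_prod : ∀ X Y, dim (prod X Y) = dim X + dim Y
  H : Obj → ℕ → WDSpace.{v, w} K q
  kunneth : ∀ X Y i j, IsTensorSummand (H X i) (H Y j) (H (prod X Y) (i + j))

/-- `β` is an algebraic number and `q ^ ((w - c) / 2) ≤ |β'| ≤ q ^ ((w + c) / 2)` for all of its complex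
conjugates `β'`: the weight of `β` differs from `w` by at most `c`. -/
def WeightNear (q : ℕ) (c w : ℝ) (β : K) [CharZero K] : Prop :=
  ∃ x : algebraicClosure ℚ K, (x : K) = β ∧ ∀ σ : algebraicClosure ℚ K →+* ℂ,
    (q : ℝ) ^ ((w - c) / 2) ≤ ‖σ x‖ ∧ ‖σ x‖ ≤ (q : ℝ) ^ ((w + c) / 2)

/-- `β` is an algebraic number all of whose complex conjugates have absolute value `q ^ (w / 2)`. -/
def IsWeil (q : ℕ) (w : ℝ) (β : K) [CharZero K] : Prop :=
  ∃ x : algebraicClosure ℚ K, (x : K) = β ∧ ∀ σ : algebraicClosure ℚ K →+* ℂ,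
    ‖σ x‖ = (q : ℝ) ^ (w / 2)

/-- The weight-monodromy conjecture for `H^i(X)`: the Frobenius eigenvalues on `gr^M_j H^i(X)` are
`q`-Weil numbers of weight `i + j`. -/
def Theory.WMC [CharZero K] (T : Theory.{u, v, w} K q) (X : T.Obj) (i : ℕ) : Prop :=
  ∀ (j : ℤ) (α : K), GrEigen (T.H X i).Φ (T.H X i).M j α → IsWeil q ((i : ℝ) + j) α

end Pool.Agent.R937.WN
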