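import Mathlib

/-!
# Nilpotent operators on tensor products
-/

open TensorProduct Finset

namespace Pool.Agent.R937.WN

variable {K V V' : Type*} [Field K] [AddCommGroup V] [Module K V] [AddCommGroup V'] [Module K V']

/-- `β` is an eigenvalue of `Φ` on the quotient `(ker N ∩ im N ^ a) / (ker N ∩ im N ^ (a + 1))`. -/
def Occurs (N Φ : Module.End K V) (a : ℕ) (β : K) : Prop :=
  ∃ x, (N ^ (a + 1)) x = 0 ∧ (N ^ a) x ∉ LinearMap.range (N ^ (a + 1)) ∧
    Φ ((N ^ a) x) - β • (N ^ a) x ∈ LinearMap.range (N ^ (a + 1))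

/-- The nilpotent operator on the tensor product. -/
noncomputable def sumOp (N : Module.End K V) (N' : Module.End K V') : Module.End K (V ⊗[K] V') :=
  TensorProduct.map N LinearMap.id + TensorProduct.map LinearMap.id N'

lemma sumOp_tmul (N : Module.End K V) (N' : Module.End K V') (u : V) (v : V') :
    sumOp N N' (u ⊗ₜ[K] v) = N u ⊗ₜ[K] v + u ⊗ₜ[K] N' v := rfl

lemma exists_functional {p : Submodule K V} {y : V} (hy : y ∉ p) :
    ∃ f : V →ₗ[K] K, f y ≠ 0 ∧ ∀ z ∈ p, f z = 0 := by
  obtain ⟨f, h1, h2⟩ := Submodule.exists_dual_map_eq_bot_of_notMem hy inferInstance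
  refine ⟨f, h1, fun z hz => ?_⟩
  have h3 : f z ∈ p.map f := Submodule.mem_map_of_mem hz
  rw [h2] at h3
  exact (Submodule.mem_bot K).1 h3

/-- The trivial parts. -/
lemma occurs_tmul {N Φ : Module.End K V} {N' Φ' : Module.End K V'} {q : K}
    (hN' : ∀ v, N' (Φ' v) = q • Φ' (N' v)) {β β' : K}
    (h : Occurs N Φ 0 β) (h' : Occurs N' Φ' 0 β') :
    Occurs (sumOp N N') (TensorProduct.map Φ Φ') 0 (β * β') := by
  obtain ⟨x, h1, h2, w, hw⟩ := h
  obtain ⟨u, g1, g2, r, hr⟩ := h'
  rw [zero_add, pow_one] at h1 h2 hw g1 g2 hr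
  rw [pow_zero, Module.End.one_apply] at h2 hw g2 hr
  refine ⟨x ⊗ₜ u, ?_, ?_, ?_⟩
  · rw [zero_add, pow_one, sumOp_tmul, h1, g1, zero_tmul, tmul_zero, add_zero]
  · rw [zero_add, pow_one, pow_zero, Module.End.one_apply]
    obtain ⟨f, f1, f2⟩ := exists_functional h2
    obtain ⟨g, e1, e2⟩ := exists_functional g2
    rintro ⟨t, ht⟩
    have h3 : ∀ t, LinearMap.mul' K K (TensorProduct.map f g (sumOp N N' t)) = 0 := by
      intro t
      induction t using TensorProduct.induction_on with
      | zero => simp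
      | tmul u v =>
        rw [sumOp_tmul, map_add, map_add, map_tmul, map_tmul, LinearMap.mul'_apply,
          LinearMap.mul'_apply, f2 _ ⟨u, rfl⟩, e2 _ ⟨v, rfl⟩, zero_mul, mul_zero, add_zero]
      | add t s ht hs => rw [map_add, map_add, map_add, ht, hs, add_zero]
    have h4 := h3 t
    rw [ht, map_tmul, LinearMap.mul'_apply] at h4
    exact mul_ne_zero f1 e1 h4
  · rw [zero_add, pow_one, pow_zero, Module.End.one_apply, map_tmul]
    have hx : Φ x = β • x + N w := by rw [hw]; abel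
    have hu : Φ' u = β' • u + N' r := by rw [hr]; abel
    have hNr : N' (N' r) = 0 := by
      rw [hr, map_sub, map_smul, hN', g1, map_zero, smul_zero, smul_zero, sub_zero]
    refine ⟨β • (x ⊗ₜ r) + β' • (w ⊗ₜ u) + w ⊗ₜ N' r, ?_⟩
    rw [map_add, map_add, map_smul, map_smul, sumOp_tmul, sumOp_tmul, sumOp_tmul, h1, g1, hNr, hx,
      hu, zero_tmul, tmul_zero, zero_add, add_zero, add_zero, add_tmul, tmul_add,
      tmul_add, smul_tmul_smul, ← smul_tmul', tmul_smul]
    abel

/-- All terms of the same total degree are in the range or none is. -/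
lemma mem_range_of_top {N : Module.End K V} {N' : Module.End K V'} {u : V} {v : V'} {n : ℕ}
    (hu : (N ^ n) u = 0) : ∀ i j, i + j = n →
      ((N ^ i) u ⊗ₜ[K] (N' ^ j) v) ∈ LinearMap.range (sumOp N N') := by
  intro i j
  induction j generalizing i with
  | zero =>
    intro h
    rw [show i = n by omega, hu, zero_tmul]
    exact Submodule.zero_mem _
  | succ j ih =>
    intro h
    have h1 := ih (i + 1) (by omega)
    have h2 : (N ^ i) u ⊗ₜ[K] (N' ^ (j + 1)) v = sumOp N N' ((N ^ i) u ⊗ₜ[K] (N' ^ j) v) -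
        (N ^ (i + 1)) u ⊗ₜ[K] (N' ^ j) v := by
      rw [sumOp_tmul, pow_succ', Module.End.mul_apply, pow_succ', Module.End.mul_apply]
      abel
    rw [h2]
    exact Submodule.sub_mem _ ⟨_, rfl⟩ h1

lemma mem_range_of_top' {N : Module.End K V} {N' : Module.End K V'} {u : V} {v : V'} {n : ℕ}
    (hv : (N' ^ n) v = 0) : ∀ j i, i + j = n →
      ((N ^ i) u ⊗ₜ[K] (N' ^ j) v) ∈ LinearMap.range (sumOp N N') := by
  intro j i
  induction i generalizing j with
  | zero =>
    intro h
    rw [show j = n by omega, hv, tmul_zero]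
    exact Submodule.zero_mem _
  | succ i ih =>
    intro h
    have h1 := ih (j + 1) (by omega)
    have h2 : (N ^ (i + 1)) u ⊗ₜ[K] (N' ^ j) v = sumOp N N' ((N ^ i) u ⊗ₜ[K] (N' ^ j) v) -
        (N ^ i) u ⊗ₜ[K] (N' ^ (j + 1)) v := by
      rw [sumOp_tmul, pow_succ' N i, Module.End.mul_apply, pow_succ' N' j, Module.End.mul_apply]
      abel
    rw [h2]
    exact Submodule.sub_mem _ ⟨_, rfl⟩ h1

/-- The alternating sum. -/
noncomputable def alt (N : Module.End K V) (a : ℕ) (u v : V) : V ⊗[K] V :=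
  ∑ k ∈ range (a + 1), (-1 : K) ^ k • ((N ^ k) u ⊗ₜ[K] (N ^ (a - k)) v)

lemma alt_add_left (N : Module.End K V) (a : ℕ) (u u' v : V) :
    alt N a (u + u') v = alt N a u v + alt N a u' v := by
  rw [alt, alt, alt, ← sum_add_distrib]
  refine sum_congr rfl fun k _ => ?_
  rw [map_add, add_tmul, smul_add]

lemma alt_add_right (N : Module.End K V) (a : ℕ) (u v v' : V) :
    alt N a u (v + v') = alt N a u v + alt N a u v' := by
  rw [alt, alt, alt, ← sum_add_distrib]
  refine sum_congr rfl fun k _ => ?_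
  rw [map_add, tmul_add, smul_add]

lemma alt_smul_left (N : Module.End K V) (a : ℕ) (c : K) (u v : V) :
    alt N a (c • u) v = c • alt N a u v := by
  rw [alt, alt, smul_sum]
  refine sum_congr rfl fun k _ => ?_
  rw [map_smul, ← smul_tmul', smul_comm]

lemma alt_smul_right (N : Module.End K V) (a : ℕ) (c : K) (u v : V) :
    alt N a u (c • v) = c • alt N a u v := by
  rw [alt, alt, smul_sum]
  refine sum_congr rfl fun k _ => ?_
  rw [map_smul, tmul_smul, smul_comm]

lemma alt_mem {N : Module.End K V} {a c d n : ℕ} {u v : V} (hn : c + d + a = n)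
    (h : (N ^ n) u = 0 ∨ (N ^ n) v = 0) :
    alt N a ((N ^ c) u) ((N ^ d) v) ∈ LinearMap.range (sumOp N N) := by
  refine Submodule.sum_mem _ fun k hk => Submodule.smul_mem _ _ ?_
  have hk' : k ≤ a := by simpa [Nat.lt_succ_iff] using hk
  rw [← Module.End.mul_apply, ← Module.End.mul_apply, ← pow_add, ← pow_add]
  rcases h with h | h
  · exact mem_range_of_top h _ _ (by omega)
  · exact mem_range_of_top' h _ _ (by omega)

lemma sumOp_alt {N : Module.End K V} {a : ℕ} {u v : V} (hu : (N ^ (a + 1)) u = 0)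
    (hv : (N ^ (a + 1)) v = 0) : sumOp N N (alt N a u v) = 0 := by
  have h1 : ∀ m ≤ a, sumOp N N (∑ k ∈ range (m + 1), (-1 : K) ^ k •
      ((N ^ k) u ⊗ₜ[K] (N ^ (a - k)) v)) =
      (-1 : K) ^ m • ((N ^ (m + 1)) u ⊗ₜ[K] (N ^ (a - m)) v) := by
    intro m
    induction m with
    | zero =>
      intro _
      rw [sum_range_one, map_smul, sumOp_tmul, pow_zero, pow_zero, one_smul, one_smul,
        Module.End.one_apply, Nat.sub_zero, zero_add, pow_one, ← Module.End.mul_apply, ← pow_succ',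
        hv, tmul_zero, add_zero]
    | succ m ih =>
      intro hm
      rw [sum_range_succ, map_add, ih (by omega), map_smul, sumOp_tmul, smul_add,
        ← Module.End.mul_apply, ← Module.End.mul_apply, ← pow_succ', ← pow_succ',
        show a - (m + 1) + 1 = a - m by omega, pow_succ (-1 : K)]
      simp
  rw [alt, h1 a le_rfl, hu, zero_tmul, smul_zero]

end Pool.Agent.R937.WN
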