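import Pool.Agent.R937.WN.Defs

/-!
# Sublinear bounds for the weights imply the weight-monodromy conjecture
-/

open TensorProduct

universe u v w

namespace Pool.Agent.R937.WN

variable {K : Type v} [Field K] {q : ℕ}

lemma occ_of_summand {A B C : WDSpace.{v, w} K q} (h : IsTensorSummand A B C) {a : ℕ} {β : K}
    (ho : Occurs (sumOp A.N B.N) (TensorProduct.map A.Φ B.Φ) a β) : C.Occ a β := by
  obtain ⟨κ, ρ, h1, h2, h3, h4⟩ := h
  have k1 : ∀ n t, (C.N ^ n) (κ t) = κ ((sumOp A.N B.N ^ n) t) := by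
    intro n
    induction n with
    | zero => intro t; simp
    | succ n ih =>
      intro t
      rw [pow_succ, Module.End.mul_apply, h2, ih, pow_succ, Module.End.mul_apply]
  have k2 : ∀ n t, ρ ((C.N ^ n) t) = (sumOp A.N B.N ^ n) (ρ t) := by
    intro n
    induction n with
    | zero => intro t; simp
    | succ n ih =>
      intro t
      rw [pow_succ, Module.End.mul_apply, ih, h3, pow_succ, Module.End.mul_apply]
  obtain ⟨x, g1, g2, s, hs⟩ := ho
  refine ⟨κ x, ?_, ?_, ?_⟩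
  · rw [k1, g1, map_zero]
  · rintro ⟨t, ht⟩
    apply g2
    refine ⟨ρ t, ?_⟩
    rw [← k2, ht, k1, h1]
  · refine ⟨κ s, ?_⟩
    rw [k1, hs, k1, h4, map_sub, map_smul]

/-- Powers. -/
lemma pow_occ [CharZero K] (T : Theory.{u, v, w} K q) (hq : (q : K) ≠ 0) {X : T.Obj} {i a : ℕ}
    {β : K} (h : (T.H X i).Occ a β) (n : ℕ) :
    ∃ (Y : T.Obj) (j : ℕ), T.dim Y = (n + 1) * (2 * T.dim X) ∧ j = (n + 1) * (2 * i) ∧
      (T.H Y j).Occ 0 ((β * β * (q : K) ^ a) ^ (n + 1)) := by
  have hsq : (T.H (T.prod X X) (i + i)).Occ 0 (β * β * (q : K) ^ a) :=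
    occ_of_summand (T.kunneth X X i i) (occurs_square hq (T.H X i).comm h)
  induction n with
  | zero =>
    refine ⟨T.prod X X, i + i, by rw [T.dim_prod]; ring, by ring, ?_⟩
    rw [zero_add, pow_one]
    exact hsq
  | succ n ih =>
    obtain ⟨Y, j, h1, h2, h3⟩ := ih
    refine ⟨T.prod Y (T.prod X X), j + (i + i), by rw [T.dim_prod, T.dim_prod, h1]; ring,
      by rw [h2]; ring, ?_⟩
    rw [pow_succ]
    exact occ_of_summand (T.kunneth _ _ _ _) (occurs_tmul (T.H (T.prod X X) (i + i)).comm h3 hsq)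

/-- The real number argument. -/
lemma abs_eq {Q r : ℝ} (hQ : 1 < Q) {i : ℕ} (h : ∀ C : ℕ, 0 < C → ∃ (n c : ℕ), C * c ≤ n + 1 ∧
    Q ^ ((((n + 1) * (2 * i) : ℕ) - (c : ℝ)) / 2) ≤ r ^ (n + 1) ∧
      r ^ (n + 1) ≤ Q ^ ((((n + 1) * (2 * i) : ℕ) + (c : ℝ)) / 2)) (hr0 : 0 ≤ r) :
    r = Q ^ i := by
  have hQ0 : 0 < Q := by linarith
  have hlQ : 0 < Real.log Q := Real.log_pos hQ
  have hr : 0 < r := by
    obtain ⟨n, c, -, h1, -⟩ := h 1 one_pos
    have h2 : 0 < r ^ (n + 1) := lt_of_lt_of_le (Real.rpow_pos_of_pos hQ0 _) h1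
    rcases hr0.eq_or_lt with h3 | h3
    · rw [← h3, zero_pow (Nat.succ_ne_zero n)] at h2
      exact absurd h2 (lt_irrefl _)
    · exact h3
  have key : ∀ C : ℕ, 0 < C → |Real.log r - i * Real.log Q| * C ≤ Real.log Q := by
    intro C hC
    obtain ⟨n, c, hc, h1, h2⟩ := h C hC
    have hn : (0 : ℝ) < n + 1 := by positivity
    have hC' : (0 : ℝ) < C := by exact_mod_cast hC
    have hcC : (C : ℝ) * c ≤ n + 1 := by exact_mod_cast hc
    have e1 := Real.log_le_log (Real.rpow_pos_of_pos hQ0 _) h1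
    have e2 := Real.log_le_log (pow_pos hr _) h2
    rw [Real.log_rpow hQ0, Real.log_pow] at e1 e2
    push_cast at e1 e2
    have e3 : |Real.log r - i * Real.log Q| * (n + 1) ≤ c / 2 * Real.log Q := by
      rw [← abs_of_pos hn, ← abs_mul, abs_le]
      constructor <;> nlinarith
    have e4 : |Real.log r - i * Real.log Q| * C * (n + 1) ≤ (n + 1) * Real.log Q := by
      have e5 : C * (c / 2 * Real.log Q) ≤ (n + 1) * Real.log Q := by nlinarith
      nlinarith
    have e6 : |Real.log r - i * Real.log Q| * C * (n + 1) ≤ Real.log Q * (n + 1) := by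
      linarith
    exact le_of_mul_le_mul_right e6 hn
  have h0 : Real.log r - i * Real.log Q = 0 := by
    by_contra hne
    have hpos := abs_pos.2 hne
    obtain ⟨C, hC⟩ := exists_nat_gt (Real.log Q / |Real.log r - i * Real.log Q|)
    have hC0 : 0 < C := by
      have : (0 : ℝ) < C := lt_of_le_of_lt (div_nonneg hlQ.le hpos.le) hC
      exact_mod_cast this
    have h1 := key C hC0
    rw [div_lt_iff₀ hpos] at hC
    linarith
  have h2 : Real.log r = Real.log (Q ^ i) := by rw [Real.log_pow]; linarith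
  exact Real.log_injOn_pos (Set.mem_Ioi.2 hr) (Set.mem_Ioi.2 (pow_pos hQ0 i)) h2

lemma IsWeil.mul_pow [CharZero K] {w : ℝ} {β : K} (hq : 0 < q) (h : IsWeil q w β) (b : ℕ) :
    IsWeil q (w + 2 * b) (β * (q : K) ^ b) := by
  obtain ⟨x, hx, h1⟩ := h
  refine ⟨x * (q : algebraicClosure ℚ K) ^ b, ?_, fun σ => ?_⟩
  · push_cast
    rw [hx]
  · have hq0 : (0 : ℝ) < q := by exact_mod_cast hq
    rw [map_mul, map_pow, map_natCast, norm_mul, norm_pow, Complex.norm_natCast, h1,
      ← Real.rpow_natCast, ← Real.rpow_add hq0]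
    congr 1
    ring

/-- It is enough to treat the kernel of `N`. -/
lemma wmc_of_occ [CharZero K] (T : Theory.{u, v, w} K q) (hq : (q : K) ≠ 0)
    (h : ∀ (X : T.Obj) (i a : ℕ) (β : K), (T.H X i).Occ a β → IsWeil q ((i : ℝ) - a) β)
    (X : T.Obj) (i : ℕ) : T.WMC X i := by
  intro j α hα
  have hq0 : 0 < q := Nat.pos_of_ne_zero (by rintro rfl; exact hq Nat.cast_zero)
  obtain ⟨a, b, β, h1, h2, h3⟩ := (T.H X i).isMonodromy.occurs_of_grEigen hq (T.H X i).comm
    (T.H X i).stable hα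
  have h4 := (h X i a β h3).mul_pow hq0 b
  rw [← h2] at h4
  have h5 : (i : ℝ) - a + 2 * b = i + j := by
    have h6 : ((a : ℤ) : ℝ) = ((2 * b - j : ℤ) : ℝ) := by rw [h1]
    push_cast at h6
    linarith
  rwa [h5] at h4

/-- **Sublinear bounds for the weights imply the weight-monodromy conjecture.** -/
theorem main [CharZero K] (T : Theory.{u, v, w} K q) (hq : 1 < q) :
    List.TFAE [∀ (X : T.Obj) (i : ℕ), T.WMC X i,
      ∀ (X : T.Obj) (i : ℕ) (β : K), Even (T.dim X) → Even i → (T.H X i).Occ 0 β →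
        WeightNear q 1 i β,
      ∃ b : ℕ → ℕ, (∀ C : ℕ, ∃ N, ∀ n ≥ N, C * b n ≤ n) ∧
        ∀ (X : T.Obj) (i : ℕ) (β : K), Even (T.dim X) → Even i → (T.H X i).Occ 0 β →
          WeightNear q (b (T.dim X)) i β] := by
  have hqR : (1 : ℝ) < q := by exact_mod_cast hq
  have hq0 : (0 : ℝ) < q := by linarith
  have hqK : (q : K) ≠ 0 := by exact_mod_cast (by omega : q ≠ 0)
  tfae_have 1 → 2 := by
    intro h X i β _ _ ho
    obtain ⟨x, hx, h1⟩ := h X i _ β
      ((T.H X i).isMonodromy.grEigen_of_occurs (T.H X i).comm (a := 0) ho)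
    refine ⟨x, hx, fun σ => ?_⟩
    rw [h1 σ, Nat.cast_zero, neg_zero, Int.cast_zero, add_zero]
    exact ⟨Real.rpow_le_rpow_of_exponent_le hqR.le (by linarith),
      Real.rpow_le_rpow_of_exponent_le hqR.le (by linarith)⟩
  tfae_have 2 → 3 := by
    intro h
    refine ⟨fun _ => 1, fun C => ⟨C, fun n hn => ?_⟩, fun X i β h1 h2 h3 => ?_⟩
    · change C * 1 ≤ n
      rw [mul_one]
      exact hn
    · rw [Nat.cast_one]
      exact h X i β h1 h2 h3
  tfae_have 3 → 1 := by
    rintro ⟨b, hb, h⟩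
    refine wmc_of_occ T hqK fun X i a β ho => ?_
    have hpow := fun n => pow_occ T hqK ho n
    -- the number is algebraic
    have halg : IsAlgebraic ℚ β := by
      obtain ⟨Y, j, h1, h2, h3⟩ := hpow 0
      obtain ⟨x, hx, -⟩ := h Y j _ (by rw [h1]; exact ⟨T.dim X, by ring⟩)
        (by rw [h2]; exact ⟨i, by ring⟩) h3
      have hx1 : IsAlgebraic ℚ (x : K) := mem_algebraicClosure_iff.1 x.2
      rw [hx, zero_add, pow_one] at hx1
      have hqa : IsAlgebraic ℚ (((q : K) ^ a)⁻¹) :=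
        ((isAlgebraic_natCast q).pow a).inv
      have h4 := hx1.mul hqa
      rw [mul_assoc, mul_inv_cancel₀ (pow_ne_zero _ hqK), mul_one, ← pow_two] at h4
      exact h4.of_pow two_pos
    refine ⟨⟨β, mem_algebraicClosure_iff.2 halg⟩, rfl, fun σ => ?_⟩
    set y : algebraicClosure ℚ K := ⟨β, mem_algebraicClosure_iff.2 halg⟩ with hy
    have hr : ‖σ y‖ ^ 2 * (q : ℝ) ^ a = (q : ℝ) ^ i := by
      refine abs_eq hqR (fun C hC => ?_) (by positivity)
      obtain ⟨n, hn⟩ : ∃ n, C * b ((n + 1) * (2 * T.dim X)) ≤ n + 1 := by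
        rcases Nat.eq_zero_or_pos (T.dim X) with hd | hd
        · refine ⟨C * b 0, ?_⟩
          rw [hd, mul_zero, mul_zero]
          omega
        · obtain ⟨N, hN⟩ := hb (C * (2 * T.dim X))
          refine ⟨N, ?_⟩
          have h1 := hN ((N + 1) * (2 * T.dim X)) (by nlinarith)
          have h2 : (2 * T.dim X) * (C * b ((N + 1) * (2 * T.dim X))) ≤
              (2 * T.dim X) * (N + 1) := by
            calc _ = C * (2 * T.dim X) * b ((N + 1) * (2 * T.dim X)) := by ring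
              _ ≤ (N + 1) * (2 * T.dim X) := h1
              _ = _ := by ring
          exact Nat.le_of_mul_le_mul_left h2 (by omega)
      obtain ⟨Y, j, h1, h2, h3⟩ := hpow n
      obtain ⟨x, hx, h4⟩ := h Y j _ (by rw [h1]; exact ⟨(n + 1) * T.dim X, by ring⟩)
        (by rw [h2]; exact ⟨(n + 1) * i, by ring⟩) h3
      refine ⟨n, b (T.dim Y), by rw [h1]; exact hn, ?_⟩
      have hxy : x = (y * y * (q : algebraicClosure ℚ K) ^ a) ^ (n + 1) := by
        apply Subtype.ext
        rw [hx]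
        push_cast
        rfl
      have h5 := h4 σ
      rw [hxy, map_pow, map_mul, map_mul, map_pow, map_natCast, norm_pow, norm_mul, norm_mul,
        norm_pow, Complex.norm_natCast, ← pow_two, h2] at h5
      exact h5
    have h6 : ‖σ y‖ ^ (2 : ℝ) = (q : ℝ) ^ ((i : ℝ) - a) := by
      rw [Real.rpow_sub hq0, Real.rpow_natCast, Real.rpow_natCast, ← hr, Real.rpow_two,
        mul_div_assoc, div_self (pow_ne_zero _ hq0.ne'), mul_one]
    calc ‖σ y‖ = (‖σ y‖ ^ (2 : ℝ)) ^ ((1 : ℝ) / 2) := by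
          rw [← Real.rpow_mul (norm_nonneg _)]
          norm_num
      _ = (q : ℝ) ^ (((i : ℝ) - a) / 2) := by
          rw [h6, ← Real.rpow_mul hq0.le]
          congr 1
          ring
  tfae_finish

end Pool.Agent.R937.WN
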