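import Pool.Agent.R937.WN.Sq

/-!
# The monodromy filtration
-/

namespace Pool.Agent.R937.WN

variable {K V : Type*} [Field K] [AddCommGroup V] [Module K V]

/-- `M` is the monodromy filtration of the nilpotent operator `N`: it is finite and increasing,
`N M_j ⊆ M_(j-2)`, and `N ^ j : gr_j → gr_(-j)` is bijective for `j ≥ 0`. -/
structure IsMonodromy (N : Module.End K V) (M : ℤ → Submodule K V) : Prop where
  mono : Monotone M
  bot : ∃ j, M j = ⊥
  top : ∃ j, M j = ⊤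
  map : ∀ j, ∀ x ∈ M j, N x ∈ M (j - 2)
  inj : ∀ j : ℕ, ∀ x ∈ M j, (N ^ j) x ∈ M (-j - 1) → x ∈ M (j - 1)
  surj : ∀ j : ℕ, ∀ y ∈ M (-j), ∃ x ∈ M j, y - (N ^ j) x ∈ M (-j - 1)

/-- `α` is an eigenvalue of `Φ` on `gr_j`. -/
def GrEigen (Φ : Module.End K V) (M : ℤ → Submodule K V) (j : ℤ) (α : K) : Prop :=
  ∃ x ∈ M j, x ∉ M (j - 1) ∧ Φ x - α • x ∈ M (j - 1)

namespace IsMonodromy

variable {N Φ : Module.End K V} {M : ℤ → Submodule K V} (h : IsMonodromy N M)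

include h

lemma map_pow (b : ℕ) {j : ℤ} {x : V} (hx : x ∈ M j) : (N ^ b) x ∈ M (j - 2 * b) := by
  induction b with
  | zero => simpa using hx
  | succ b ih =>
    rw [pow_succ', Module.End.mul_apply]
    have := h.map _ _ ih
    rwa [show j - 2 * (b : ℤ) - 2 = j - 2 * ((b + 1 : ℕ) : ℤ) by push_cast; ring] at this

/-- Induction from below. -/
lemma below {P : ℤ → V → Prop} (h0 : ∀ j, P j 0)
    (hs : ∀ j, (∀ y ∈ M (j - 1), P (j - 1) y) → ∀ y ∈ M j, P j y) :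
    ∀ j, ∀ y ∈ M j, P j y := by
  obtain ⟨j0, hj0⟩ := h.bot
  have h1 : ∀ t : ℕ, ∀ y ∈ M (j0 + t), P (j0 + t) y := by
    intro t
    induction t with
    | zero =>
      intro y hy
      rw [Nat.cast_zero, add_zero, hj0] at hy
      rw [(Submodule.mem_bot K).1 hy]
      exact h0 _
    | succ t ih =>
      apply hs
      rw [show j0 + ((t + 1 : ℕ) : ℤ) - 1 = j0 + t by push_cast; ring]
      exact ih
  intro j y hy
  rcases le_or_gt j0 j with h2 | h2
  · obtain ⟨t, ht⟩ := Int.eq_ofNat_of_zero_le (sub_nonneg.2 h2)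
    have h3 : j = j0 + t := by omega
    subst h3
    exact h1 t y hy
  · have h3 := h.mono h2.le hy
    rw [hj0] at h3
    rw [(Submodule.mem_bot K).1 h3]
    exact h0 _

lemma exists_pre {j : ℤ} (hj : j ≤ -1) {y : V} (hy : y ∈ M j) : ∃ x ∈ M (j + 2), N x = y := by
  revert hj
  refine h.below (P := fun j y => j ≤ -1 → ∃ x ∈ M (j + 2), N x = y) ?_ ?_ j y hy
  · intro j _
    exact ⟨0, Submodule.zero_mem _, map_zero N⟩
  · intro j ih y hy hj
    obtain ⟨a, ha⟩ := Int.eq_ofNat_of_zero_le (show 0 ≤ -j - 1 by omega)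
    have hja : j = -((a + 1 : ℕ) : ℤ) := by push_cast; omega
    obtain ⟨x, hx, hxy⟩ := h.surj (a + 1) y (by rwa [← hja])
    rw [← hja] at hxy
    obtain ⟨x', hx', hxy'⟩ := ih _ hxy (by omega)
    refine ⟨(N ^ a) x + x', Submodule.add_mem _ ?_ (h.mono (by omega) hx'), ?_⟩
    · have := h.map_pow a hx
      rwa [show ((a + 1 : ℕ) : ℤ) - 2 * (a : ℤ) = j + 2 by rw [hja]; push_cast; ring] at this
    · rw [map_add, hxy', ← Module.End.mul_apply, ← pow_succ']
      abel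

lemma le_range (a : ℕ) {y : V} (hy : y ∈ M (-a)) : y ∈ LinearMap.range (N ^ a) := by
  have h1 := h.below (P := fun j y => ∀ a : ℕ, j = -(a : ℤ) → y ∈ LinearMap.range (N ^ a)) ?_ ?_
    (-a) y hy a rfl
  · exact h1
  · intro j a _
    exact Submodule.zero_mem _
  · intro j ih y hy a hj
    subst hj
    obtain ⟨x, hx, hxy⟩ := h.surj a y hy
    obtain ⟨z, hz⟩ := ih _ hxy (a + 1) (by push_cast; ring)
    refine ⟨x + N z, ?_⟩
    rw [map_add, ← Module.End.mul_apply, ← pow_succ, hz]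
    abel

lemma ker_le (m : ℕ) {x : V} (hx : (N ^ (m + 1)) x = 0) : x ∈ M m := by
  obtain ⟨j1, hj1⟩ := h.top
  have h1 : ∀ t : ℕ, ∀ j : ℤ, j1 ≤ j + t → (m : ℤ) ≤ j → x ∈ M j := by
    intro t
    induction t with
    | zero =>
      intro j hj _
      have : x ∈ M j1 := by rw [hj1]; trivial
      exact h.mono (by simpa using hj) this
    | succ t ih =>
      intro j hj hm
      have h2 := ih (j + 1) (by push_cast at hj ⊢; omega) (by omega)
      obtain ⟨e, he⟩ := Int.eq_ofNat_of_zero_le (show 0 ≤ j + 1 by omega)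
      rw [he] at h2
      have h3 := h.inj e x h2 (by
        have h4 : (N ^ e) x = 0 := by
          obtain ⟨c, hc⟩ : ∃ c, e = c + (m + 1) := ⟨e - (m + 1), by omega⟩
          rw [hc, pow_add, Module.End.mul_apply, hx, map_zero]
        rw [h4]
        exact Submodule.zero_mem _)
      rwa [show (e : ℤ) - 1 = j by omega] at h3
  exact h1 (j1 - m).toNat m (by omega) le_rfl

lemma ker_range_le {a : ℕ} {y : V} (hy0 : N y = 0) (hy : y ∈ LinearMap.range (N ^ a)) :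
    y ∈ M (-a) := by
  obtain ⟨x, rfl⟩ := hy
  have h1 := h.ker_le a (x := x) (by rw [pow_succ', Module.End.mul_apply, hy0])
  have h2 := h.map_pow a h1
  rwa [show (a : ℤ) - 2 * (a : ℤ) = -a by ring] at h2

/-- From the kernel of `N` to the graded pieces. -/
lemma grEigen_of_occurs {q : K} (hN : ∀ v, N (Φ v) = q • Φ (N v)) {a : ℕ} {β : K}
    (ho : Occurs N Φ a β) : GrEigen Φ M (-a) β := by
  obtain ⟨x, h1, h2, h3⟩ := ho
  have hy0 : N ((N ^ a) x) = 0 := by rw [← Module.End.mul_apply, ← pow_succ', h1]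
  refine ⟨(N ^ a) x, h.ker_range_le hy0 ⟨x, rfl⟩, fun h4 => h2 ?_, ?_⟩
  · have h5 : (N ^ a) x ∈ M (-((a + 1 : ℕ) : ℤ)) := by
      rwa [show -((a + 1 : ℕ) : ℤ) = -(a : ℤ) - 1 by push_cast; ring]
    exact h.le_range _ h5
  · have h5 := h.ker_range_le (a := a + 1) (y := Φ ((N ^ a) x) - β • (N ^ a) x)
      (by rw [map_sub, map_smul, hN, hy0, map_zero, smul_zero, smul_zero, sub_zero]) h3
    rwa [show -((a + 1 : ℕ) : ℤ) = -(a : ℤ) - 1 by push_cast; ring] at h5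

/-- From the graded pieces to the kernel of `N`. -/
lemma occurs_of_grEigen {q : K} (hq : q ≠ 0) (hN : ∀ v, N (Φ v) = q • Φ (N v))
    (hΦ : ∀ j, ∀ x ∈ M j, Φ x ∈ M j) {j : ℤ} {α : K} (hg : GrEigen Φ M j α) :
    ∃ (a b : ℕ) (β : K), (a : ℤ) = 2 * b - j ∧ α = β * q ^ b ∧ Occurs N Φ a β := by
  classical
  obtain ⟨x, hx, hx1, hx2⟩ := hg
  obtain ⟨j0, hj0⟩ := h.bot
  have hex : ∃ c : ℕ, (N ^ c) x ∈ M (j - 2 * c - 1) := by
    refine ⟨(j - j0).toNat, ?_⟩
    have h1 := h.map_pow (j - j0).toNat hx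
    have h2 : j - 2 * ((j - j0).toNat : ℤ) ≤ j0 ∨ (j - j0).toNat = 0 ∧ j < j0 := by omega
    have h3 : (N ^ (j - j0).toNat) x = 0 := by
      have h4 : (N ^ (j - j0).toNat) x ∈ M j0 := by
        rcases h2 with h2 | ⟨h2, h5⟩
        · exact h.mono h2 h1
        · exact h.mono (by omega) h1
      rw [hj0] at h4
      exact (Submodule.mem_bot K).1 h4
    rw [h3]
    exact Submodule.zero_mem _
  obtain ⟨b, hb0, hb1⟩ : ∃ b : ℕ, (N ^ b) x ∉ M (j - 2 * b - 1) ∧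
      (N ^ (b + 1)) x ∈ M (j - 2 * (b + 1 : ℕ) - 1) := by
    have h1 := Nat.find_spec hex
    have h2 := fun m => Nat.find_min hex (m := m)
    rcases hc : Nat.find hex with _ | b
    · rw [hc] at h1
      rw [pow_zero, Module.End.one_apply, Nat.cast_zero, mul_zero, sub_zero] at h1
      exact absurd h1 hx1
    · rw [hc] at h1 h2
      exact ⟨b, h2 b (Nat.lt_succ_self b), h1⟩
  set y0 := (N ^ b) x with hy0
  have hy0M : y0 ∈ M (j - 2 * b) := h.map_pow b hx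
  have hNy0 : N y0 ∈ M (j - 2 * b - 3) := by
    rw [pow_succ', Module.End.mul_apply] at hb1
    rwa [show j - 2 * ((b + 1 : ℕ) : ℤ) - 1 = j - 2 * b - 3 by push_cast; ring] at hb1
  have hle : j - 2 * b ≤ 0 := by
    by_contra hcon
    obtain ⟨e, he⟩ := Int.eq_ofNat_of_zero_le (show 0 ≤ j - 2 * b - 1 by omega)
    have he' : j - 2 * b = ((e + 1 : ℕ) : ℤ) := by push_cast; omega
    apply hb0
    rw [he'] at hy0M hNy0 ⊢
    refine h.inj (e + 1) y0 hy0M ?_
    have h1 := h.map_pow e hNy0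
    rw [pow_succ, Module.End.mul_apply]
    rwa [show ((e + 1 : ℕ) : ℤ) - 3 - 2 * (e : ℤ) = -((e + 1 : ℕ) : ℤ) - 1 by push_cast; ring] at h1
  obtain ⟨a, ha⟩ := Int.eq_ofNat_of_zero_le (show 0 ≤ 2 * b - j by omega)
  have ha1 : j - 2 * b = -(a : ℤ) := by omega
  rw [ha1] at hy0M hb0 hNy0
  obtain ⟨m, hm, hNm⟩ := h.exists_pre (j := -(a : ℤ) - 3) (by omega) hNy0
  rw [show -(a : ℤ) - 3 + 2 = -(a : ℤ) - 1 by ring] at hm
  have hyN : N (y0 - m) = 0 := by rw [map_sub, hNm, sub_self]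
  have hyM : y0 - m ∈ M (-(a : ℤ)) := Submodule.sub_mem _ hy0M (h.mono (by omega) hm)
  have hyM1 : y0 - m ∉ M (-(a : ℤ) - 1) := fun h1 => hb0 (by
    have := Submodule.add_mem _ h1 hm
    rwa [sub_add_cancel] at this)
  obtain ⟨x', hx'⟩ := h.le_range a hyM
  have hqb : q ^ b ≠ 0 := pow_ne_zero _ hq
  refine ⟨a, b, α * (q ^ b)⁻¹, by omega, by rw [mul_assoc, inv_mul_cancel₀ hqb, mul_one], x', ?_,
    ?_, ?_⟩
  · rw [pow_succ', Module.End.mul_apply, hx', hyN]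
  · rw [hx']
    intro h1
    have h2 := h.ker_range_le (a := a + 1) hyN h1
    rw [show -((a + 1 : ℕ) : ℤ) = -(a : ℤ) - 1 by push_cast; ring] at h2
    exact hyM1 h2
  · rw [hx']
    have h1 : Φ y0 - (α * (q ^ b)⁻¹) • y0 = (q ^ b)⁻¹ • (N ^ b) (Φ x - α • x) := by
      rw [map_sub, pow_comm hN, map_smul, smul_sub, smul_smul, inv_mul_cancel₀ hqb, one_smul,
        smul_smul, mul_comm α]
    have h2 : Φ y0 - (α * (q ^ b)⁻¹) • y0 ∈ M (-(a : ℤ) - 1) := by
      rw [h1]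
      refine Submodule.smul_mem _ _ ?_
      have h3 := h.map_pow b hx2
      rwa [show j - 1 - 2 * (b : ℤ) = -(a : ℤ) - 1 by omega] at h3
    have h3 : Φ (y0 - m) - (α * (q ^ b)⁻¹) • (y0 - m) ∈ M (-((a + 1 : ℕ) : ℤ)) := by
      rw [show -((a + 1 : ℕ) : ℤ) = -(a : ℤ) - 1 by push_cast; ring]
      have h4 : Φ (y0 - m) - (α * (q ^ b)⁻¹) • (y0 - m) =
          (Φ y0 - (α * (q ^ b)⁻¹) • y0) - (Φ m - (α * (q ^ b)⁻¹) • m) := by
        rw [map_sub, smul_sub]; abel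
      rw [h4]
      exact Submodule.sub_mem _ h2 (Submodule.sub_mem _ (hΦ _ _ hm) (Submodule.smul_mem _ _ hm))
    exact h.le_range _ h3

end IsMonodromy

end Pool.Agent.R937.WN
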