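import Pool.Agent.R937.WN.Lin

/-!
# The square of a string contains a trivial string
-/

open TensorProduct Finset

namespace Pool.Agent.R937.WN

variable {K V : Type*} [Field K] [AddCommGroup V] [Module K V]

/-- The functional. -/
noncomputable def altF (N : Module.End K V) (f : V →ₗ[K] K) (a : ℕ) : V ⊗[K] V →ₗ[K] K :=
  ∑ k ∈ range (a + 1), (-1 : K) ^ k •
    (LinearMap.mul' K K ∘ₗ TensorProduct.map (f ∘ₗ (N ^ (a - k))) (f ∘ₗ (N ^ k)))

lemma altF_tmul (N : Module.End K V) (f : V →ₗ[K] K) (a : ℕ) (u v : V) :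
    altF N f a (u ⊗ₜ v) =
      ∑ k ∈ range (a + 1), (-1 : K) ^ k * (f ((N ^ (a - k)) u) * f ((N ^ k) v)) := by
  rw [altF, LinearMap.sum_apply]
  refine sum_congr rfl fun k _ => ?_
  rw [LinearMap.smul_apply, LinearMap.comp_apply, map_tmul, LinearMap.mul'_apply,
    LinearMap.comp_apply, LinearMap.comp_apply, smul_eq_mul]

lemma altF_sumOp {N : Module.End K V} {f : V →ₗ[K] K} {a : ℕ}
    (hf : ∀ z ∈ LinearMap.range (N ^ (a + 1)), f z = 0) (t : V ⊗[K] V) :
    altF N f a (sumOp N N t) = 0 := by
  induction t using TensorProduct.induction_on with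
  | zero => simp
  | add t s ht hs => rw [map_add, map_add, ht, hs, add_zero]
  | tmul u v =>
    rw [sumOp_tmul, map_add, altF_tmul, altF_tmul, ← sum_add_distrib]
    have h1 : ∀ m ≤ a, ∑ k ∈ range (m + 1), ((-1 : K) ^ k * (f ((N ^ (a - k)) (N u)) *
        f ((N ^ k) v)) + (-1 : K) ^ k * (f ((N ^ (a - k)) u) * f ((N ^ k) (N v)))) =
        (-1 : K) ^ m * (f ((N ^ (a - m)) u) * f ((N ^ (m + 1)) v)) := by
      intro m
      induction m with
      | zero =>
        intro _
        rw [sum_range_one, Nat.sub_zero, ← Module.End.mul_apply, ← pow_succ, hf _ ⟨u, rfl⟩,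
          ← Module.End.mul_apply, ← pow_succ]
        ring
      | succ m ih =>
        intro hm
        rw [sum_range_succ, ih (by omega), ← Module.End.mul_apply, ← pow_succ,
          ← Module.End.mul_apply, ← pow_succ, show a - (m + 1) + 1 = a - m by omega]
        ring
    rw [h1 a le_rfl, hf _ ⟨v, rfl⟩, mul_zero, mul_zero]

lemma altF_alt {N : Module.End K V} {f : V →ₗ[K] K} {a : ℕ} {x : V}
    (hx : (N ^ (a + 1)) x = 0) :
    altF N f a (alt N a x x) = ((a + 1 : ℕ) : K) * (f ((N ^ a) x) * f ((N ^ a) x)) := by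
  rw [alt, map_sum]
  have h0 : ∀ m, a < m → (N ^ m) x = 0 := by
    intro m hm
    obtain ⟨c, rfl⟩ := Nat.exists_eq_add_of_le (Nat.succ_le_of_lt hm)
    rw [show a.succ + c = c + (a + 1) by omega, pow_add, Module.End.mul_apply, hx, map_zero]
  have h1 : ∀ l ∈ range (a + 1), altF N f a ((-1 : K) ^ l • ((N ^ l) x ⊗ₜ (N ^ (a - l)) x)) =
      f ((N ^ a) x) * f ((N ^ a) x) := by
    intro l hl
    have hl' : l ≤ a := by simpa [Nat.lt_succ_iff] using hl
    rw [map_smul, altF_tmul, sum_eq_single l]
    · rw [← Module.End.mul_apply, ← Module.End.mul_apply, ← pow_add, ← pow_add,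
        show a - l + l = a by omega, show l + (a - l) = a by omega, smul_eq_mul, ← mul_assoc,
        ← pow_add, ← two_mul, pow_mul]
      simp
    · intro k hk hkl
      have hk' : k ≤ a := by simpa [Nat.lt_succ_iff] using hk
      rw [← Module.End.mul_apply, ← Module.End.mul_apply, ← pow_add, ← pow_add]
      rcases lt_or_gt_of_ne hkl with h | h
      · rw [h0 (a - k + l) (by omega), map_zero, zero_mul, mul_zero]
      · rw [h0 (k + (a - l)) (by omega), map_zero, mul_zero, mul_zero]
    · intro h
      exact absurd hl h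
  rw [sum_congr rfl h1, sum_const, card_range, nsmul_eq_mul]

lemma pow_comm {N Φ : Module.End K V} {q : K} (hN : ∀ v, N (Φ v) = q • Φ (N v)) (k : ℕ) (v : V) :
    (N ^ k) (Φ v) = q ^ k • Φ ((N ^ k) v) := by
  induction k generalizing v with
  | zero => simp
  | succ k ih =>
    rw [pow_succ, Module.End.mul_apply, hN, map_smul, ih, Module.End.mul_apply, smul_smul]
    congr 1
    ring

lemma map_alt {N Φ : Module.End K V} {q : K} (hN : ∀ v, N (Φ v) = q • Φ (N v)) (a : ℕ) (u v : V) :
    alt N a (Φ u) (Φ v) = q ^ a • TensorProduct.map Φ Φ (alt N a u v) := by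
  rw [alt, alt, map_sum, smul_sum]
  refine sum_congr rfl fun k hk => ?_
  have hk' : k ≤ a := by simpa [Nat.lt_succ_iff] using hk
  rw [pow_comm hN, pow_comm hN, map_smul, map_tmul, smul_tmul_smul, ← pow_add,
    show k + (a - k) = a by omega, smul_comm]

/-- The square of a string contains a trivial string. -/
lemma occurs_square [CharZero K] {N Φ : Module.End K V} {q : K} (hq : q ≠ 0)
    (hN : ∀ v, N (Φ v) = q • Φ (N v)) {a : ℕ} {β : K} (h : Occurs N Φ a β) :
    Occurs (sumOp N N) (TensorProduct.map Φ Φ) 0 (β * β * q ^ a) := by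
  obtain ⟨x, h1, h2, w, hw⟩ := h
  have hqa : q ^ a ≠ 0 := pow_ne_zero _ hq
  set α := q ^ a * β with hα
  set w' := q ^ a • w with hw'
  set l := Φ x - α • x - N w' with hl
  have hΦ : Φ x = α • x + l + N w' := by rw [hl]; abel
  have hl0 : (N ^ a) l = 0 := by
    have e1 : (N ^ a) (N w') = (N ^ (a + 1)) w' := by
      rw [← Module.End.mul_apply, ← pow_succ]
    rw [hl, map_sub, map_sub, pow_comm hN, map_smul, e1, hw', map_smul, hw, hα, mul_smul, smul_sub]
    abel
  have hw0 : (N ^ (a + 2)) w' = 0 := by
    have e1 : N ((N ^ a) x) = 0 := by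
      rw [← Module.End.mul_apply, ← pow_succ', h1]
    rw [hw', map_smul, show a + 2 = a + 1 + 1 by ring, pow_succ', Module.End.mul_apply, hw, map_sub,
      hN, e1, map_zero, smul_zero, map_smul, e1, smul_zero, sub_zero, smul_zero]
  clear_value w' l
  refine ⟨alt N a x x, ?_, ?_, ?_⟩
  · rw [zero_add, pow_one]
    exact sumOp_alt h1 h1
  · rw [zero_add, pow_one, pow_zero, Module.End.one_apply]
    rintro ⟨t, ht⟩
    obtain ⟨f, f1, f2⟩ := exists_functional h2
    have h3 := altF_sumOp f2 t
    rw [ht, altF_alt h1] at h3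
    have h4 : ((a + 1 : ℕ) : K) ≠ 0 := by exact_mod_cast Nat.succ_ne_zero a
    exact mul_ne_zero h4 (mul_ne_zero f1 f1) h3
  · rw [zero_add, pow_one, pow_zero, Module.End.one_apply]
    have r1 : ∀ y, alt N a y l ∈ LinearMap.range (sumOp N N) := fun y => by
      have := alt_mem (N := N) (a := a) (c := 0) (d := 0) (n := a) (u := y) (v := l) (by omega)
        (Or.inr hl0)
      simpa using this
    have r2 : ∀ y, alt N a l y ∈ LinearMap.range (sumOp N N) := fun y => by
      have := alt_mem (N := N) (a := a) (c := 0) (d := 0) (n := a) (u := l) (v := y) (by omega)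
        (Or.inl hl0)
      simpa using this
    have r3 : alt N a x (N w') ∈ LinearMap.range (sumOp N N) := by
      have := alt_mem (N := N) (a := a) (c := 0) (d := 1) (n := a + 1) (u := x) (v := w') (by omega)
        (Or.inl h1)
      simpa using this
    have r4 : alt N a (N w') x ∈ LinearMap.range (sumOp N N) := by
      have := alt_mem (N := N) (a := a) (c := 1) (d := 0) (n := a + 1) (u := w') (v := x) (by omega)
        (Or.inr h1)
      simpa using this
    have r5 : alt N a (N w') (N w') ∈ LinearMap.range (sumOp N N) := by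
      have := alt_mem (N := N) (a := a) (c := 1) (d := 1) (n := a + 2) (u := w') (v := w')
        (by omega) (Or.inr hw0)
      simpa using this
    have h5 : TensorProduct.map Φ Φ (alt N a x x) - (β * β * q ^ a) • alt N a x x =
        (q ^ a)⁻¹ • (α • alt N a x l + α • alt N a x (N w') + alt N a l (Φ x) +
          (α • alt N a (N w') x + alt N a (N w') l + alt N a (N w') (N w'))) := by
      have h6 := map_alt hN a x x
      have h7 : TensorProduct.map Φ Φ (alt N a x x) = (q ^ a)⁻¹ • alt N a (Φ x) (Φ x) := by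
        rw [h6, smul_smul, inv_mul_cancel₀ hqa, one_smul]
      have h8 : alt N a (Φ x) (Φ x) = α • alt N a x (Φ x) + alt N a l (Φ x) +
          alt N a (N w') (Φ x) := by
        have h11 : ∀ y, alt N a (Φ x) y = α • alt N a x y + alt N a l y + alt N a (N w') y := by
          intro y
          rw [hΦ, alt_add_left, alt_add_left, alt_smul_left]
        exact h11 (Φ x)
      have h9 : ∀ y, alt N a y (Φ x) = α • alt N a y x + alt N a y l + alt N a y (N w') := by
        intro y
        rw [hΦ, alt_add_right, alt_add_right, alt_smul_right]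
      rw [h7, h8, h9 x, h9 (N w'), smul_add α, smul_add α, smul_smul α α]
      have h10 : (β * β * q ^ a) • alt N a x x = (q ^ a)⁻¹ • ((α * α) • alt N a x x) := by
        rw [smul_smul]
        congr 1
        rw [hα]
        field_simp
      rw [h10, ← smul_sub]
      congr 1
      abel
    rw [h5]
    refine Submodule.smul_mem _ _ ?_
    exact Submodule.add_mem _ (Submodule.add_mem _ (Submodule.add_mem _
      (Submodule.smul_mem _ _ (r1 x)) (Submodule.smul_mem _ _ r3)) (r2 _))
      (Submodule.add_mem _ (Submodule.add_mem _ (Submodule.smul_mem _ _ r4) (r1 _)) r5)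

end Pool.Agent.R937.WN
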